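import Pool.Agent.H23.QCF.Targets

/-!
# Row KB6A: the sets of places `PP u t` have index at most two
-/

set_option autoImplicit false

open NumberField IsDedekindDomain Pool.Agent.H23.QCF
open Pool.Agent.H32.QC (Sol hil Iso FPl Pl ic hs sqAt HasseConic ProdFormula Prescribed)

namespace Pool.Agent.H16.QCF

/-- the finite places at which an element is no unit -/
theorem finite_nonunit {K : Type} [Field K] [NumberField K] (t : K) (ht : t ≠ 0) :
    {v : FPl K | v.valuation K t ≠ 1}.Finite := by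
  have h1 : (HeightOneSpectrum.Support (𝓞 K) t).Finite := HeightOneSpectrum.Support.finite (𝓞 K) t
  have h2 : (HeightOneSpectrum.Support (𝓞 K) t⁻¹).Finite :=
    HeightOneSpectrum.Support.finite (𝓞 K) t⁻¹
  refine (h1.union h2).subset ?_
  intro v hv
  have hv' : v.valuation K t ≠ 1 := hv
  have h0 : v.valuation K t ≠ 0 := (Valuation.ne_zero_iff _).2 ht
  rcases lt_or_gt_of_ne hv' with h | h
  · right
    show 1 < v.valuation K t⁻¹
    rw [map_inv₀]
    exact (one_lt_inv₀ (zero_lt_iff.2 h0)).2 h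
  · left
    exact h

theorem sp_finite {K : Type} [Field K] [NumberField K] (S : Set (FPl K)) (hS : S.Finite) :
    (Sp S).Finite := by
  have h1 : (Sum.inl '' S ∪ Set.range Sum.inr : Set (Pl K)).Finite :=
    (hS.image _).union (Set.finite_range _)
  refine h1.subset ?_
  intro p hp
  cases p with
  | inl v => exact Or.inl ⟨v, hp v rfl, rfl⟩
  | inr φ => exact Or.inr ⟨φ, rfl⟩

theorem pf_B6A (h4 : T_B4I) (hchi : T_CHI) (hnd : T_HND) (hwa : T_WA)
    (hg : T_GOOD) (hune : T_UNE) (hsq : T_HSQ) : T_B6A := by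
  intro K _ _ t ht X Y hX hY hXt hYt hXP hYP
  classical
  have ht0 : t ≠ 0 := by
    rintro rfl
    exact ht ⟨0, by simp⟩
  have hAfin : ({v : FPl K | v.valuation K t ≠ 1} ∪ Sum.inl ⁻¹' X ∪ Sum.inl ⁻¹' Y).Finite :=
    ((finite_nonunit t ht0).union (hX.preimage Sum.inl_injective.injOn)).union
      (hY.preimage Sum.inl_injective.injOn)
  obtain ⟨S, hAS, hS⟩ := hg K _ hAfin
  have htS : ∀ v, v ∉ S → v.valuation K t = 1 := by
    intro v hv
    by_contra h
    exact hv (hAS (Or.inl (Or.inl h)))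
  have hXS : X ⊆ Sp S := by
    intro p hp v hv
    subst hv
    exact hAS (Or.inl (Or.inr hp))
  have hYS : Y ⊆ Sp S := by
    intro p hp v hv
    subst hv
    exact hAS (Or.inr hp)
  obtain ⟨S', hSS', hS', hsplit, hind⟩ := h4 K S hS (Units.mk0 t ht0)
    (fun v hv => by simpa using htS v hv) (by simpa using ht)
  have hsplit' : ∀ v, v ∈ S' → v ∉ S → sqAt (.inl v : Pl K) t := by
    intro v hv hv'
    simpa using hsplit v hv hv'
  -- signs
  choose χ hχ hχsq using fun p : Pl K => hchi K p t ht0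
  have hχneg : ∀ (p : Pl K) (a : Kˣ), hs p (a : K) t = -1 ↔ χ p a = -1 := by
    intro p a
    rw [← hχ p a]
    constructor
    · intro h
      rcases Int.units_eq_one_or (χ p a) with h1 | h1
      · rw [h1] at h; norm_num at h
      · exact h1
    · intro h
      rw [h]; norm_num
  -- an element with prescribed symbols
  have hpres : ∀ Z : Set (Pl K), (∀ p ∈ Z, ¬ sqAt p t) →
      ∃ y : Kˣ, ∀ p, p ∈ Sp S → (χ p y = -1 ↔ p ∈ Z) := by
    intro Z hZ
    have hex : ∀ p : Pl K, ∃ a : Kˣ, (χ p a = -1 ↔ p ∈ Z) := by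
      intro p
      by_cases hp : p ∈ Z
      · obtain ⟨a, ha0, ha⟩ := hnd K p t ht0 (hZ p hp)
        refine ⟨Units.mk0 a ha0, ?_⟩
        have h1 : hs p ((Units.mk0 a ha0 : Kˣ) : K) t = -1 := by simpa using ha
        exact ⟨fun _ => hp, fun _ => (hχneg p _).1 h1⟩
      · refine ⟨1, ?_⟩
        rw [map_one]
        constructor
        · intro h
          exact absurd h (by decide)
        · intro h
          exact absurd h hp
    choose x hx using hex
    obtain ⟨y, hy⟩ := hwa K (Sp S) (sp_finite S hS.fin) x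
    refine ⟨y, fun p hp => ?_⟩
    have h1 : χ p (y * x p) = 1 := hχsq p _ (hy p hp)
    rw [map_mul] at h1
    have h2 : χ p y = χ p (x p) := by
      rcases Int.units_eq_one_or (χ p y) with h3 | h3 <;>
      rcases Int.units_eq_one_or (χ p (x p)) with h4 | h4 <;>
      rw [h3, h4] at h1 ⊢ <;> exact absurd h1 (by decide)
    rw [h2]
    exact hx p
  -- the claim
  have hclaim : ∀ g : Kˣ, g ∈ US S' ⊔ SQS (Sp S) →
      {p : Pl K | p ∈ Sp S ∧ χ p g = -1} ∈ PT t := by
    intro g hg'
    obtain ⟨u, hu, q, hq, rfl⟩ := Subgroup.mem_sup.1 hg'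
    refine ⟨u, ?_⟩
    ext p
    show hs p (u : K) t = -1 ↔ p ∈ Sp S ∧ χ p (u * q) = -1
    by_cases hp : p ∈ Sp S
    · have hq1 : χ p q = 1 := by
        apply hχsq
        have h1 : q ∈ (⨅ p ∈ Sp S, SQ p : Subgroup Kˣ) := hq
        rw [Subgroup.mem_iInf] at h1
        have h2 := h1 p
        rw [Subgroup.mem_iInf] at h2
        exact h2 hp
      rw [map_mul, hq1, mul_one, hχneg]
      exact ⟨fun h => ⟨hp, h⟩, fun h => h.2⟩
    · refine ⟨fun h => ?_, fun h => absurd h.1 hp⟩
      exfalso
      have hp' : ∃ v, p = Sum.inl v ∧ v ∉ S := by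
        by_contra hcon
        apply hp
        intro v hv
        by_contra hvS
        exact hcon ⟨v, hv, hvS⟩
      obtain ⟨v, rfl, hvS⟩ := hp'
      have h1 : hs (.inl v : Pl K) (u : K) t = 1 := by
        by_cases hv' : v ∈ S'
        · exact hsq K _ _ _ (hsplit' v hv' hvS)
        · refine hune K v (u : K) t 0 0 (hS'.dy v hv') ?_ ?_ ⟨0, rfl⟩ ⟨0, rfl⟩
          · rw [WithZero.exp_zero]
            exact hu v hv'
          · rw [WithZero.exp_zero]
            exact htS v hvS
      rw [h1] at h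
      norm_num at h
  obtain ⟨x, hx⟩ := hpres X hXt
  obtain ⟨y, hy⟩ := hpres Y hYt
  have hxH : x ∉ US S' ⊔ SQS (Sp S) := by
    intro h
    apply hXP
    have h1 := hclaim x h
    have h2 : {p : Pl K | p ∈ Sp S ∧ χ p x = -1} = X := by
      ext p
      exact ⟨fun h => (hx p h.1).1 h.2, fun h => ⟨hXS h, (hx p (hXS h)).2 h⟩⟩
    rwa [h2] at h1
  have hyH : y ∉ US S' ⊔ SQS (Sp S) := by
    intro h
    apply hYP
    have h1 := hclaim y h
    have h2 : {p : Pl K | p ∈ Sp S ∧ χ p y = -1} = Y := by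
      ext p
      exact ⟨fun h => (hy p h.1).1 h.2, fun h => ⟨hYS h, (hy p (hYS h)).2 h⟩⟩
    rwa [h2] at h1
  have hxy : x * y ∈ US S' ⊔ SQS (Sp S) :=
    (Subgroup.mul_mem_iff_of_index_two hind).2 ⟨fun h => absurd h hxH, fun h => absurd h hyH⟩
  have h1 := hclaim _ hxy
  have h2 : {p : Pl K | p ∈ Sp S ∧ χ p (x * y) = -1} = symmDiff X Y := by
    ext p
    rw [Set.mem_symmDiff]
    constructor
    · rintro ⟨hp, h⟩
      rw [map_mul] at h
      rw [← hx p hp, ← hy p hp]
      rcases Int.units_eq_one_or (χ p x) with h3 | h3 <;>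
      rcases Int.units_eq_one_or (χ p y) with h4 | h4 <;>
      rw [h3, h4] at h ⊢
      · exact absurd h (by decide)
      · right; exact ⟨rfl, by decide⟩
      · left; exact ⟨rfl, by decide⟩
      · exact absurd h (by decide)
    · intro h
      have hp : p ∈ Sp S := by
        rcases h with h | h
        · exact hXS h.1
        · exact hYS h.1
      refine ⟨hp, ?_⟩
      rw [map_mul]
      rw [← hx p hp, ← hy p hp] at h
      rcases Int.units_eq_one_or (χ p x) with h3 | h3 <;>
      rcases Int.units_eq_one_or (χ p y) with h4 | h4 <;>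
      rw [h3, h4] at h ⊢
      · rcases h with h | h
        · exact absurd h.1 (by decide)
        · exact absurd h.1 (by decide)
      · decide
      · decide
      · rcases h with h | h
        · exact absurd rfl h.2
        · exact absurd rfl h.2
  rwa [h2] at h1

end Pool.Agent.H16.QCF
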