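import Pool.Agent.H23.QCF.Targets

/-!
# Row KISO: isotropic subgroups are small
-/

set_option autoImplicit false

open NumberField IsDedekindDomain Pool.Agent.H23.QCF
open Pool.Agent.H32.QC (Sol hil Iso FPl Pl ic hs sqAt HasseConic ProdFormula Prescribed)

namespace Pool.Agent.H16.QCF

/-- a finite commutative group has at most as many signs as elements -/
theorem card_signs_le (A : Type) [CommGroup A] [Finite A] :
    Finite (A →* ℤˣ) ∧ Nat.card (A →* ℤˣ) ≤ Nat.card A := by
  have h0 : Nonempty ((A →* ℂˣ) ≃* A) :=
    CommGroup.monoidHom_mulEquiv_of_hasEnoughRootsOfUnity A ℂ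
  obtain ⟨e⟩ := h0
  have hj : Function.Injective
      (fun f : A →* ℤˣ => e ((Units.map (Int.castRingHom ℂ).toMonoidHom).comp f)) := by
    intro f g h
    have h' := e.injective h
    ext x
    have h2 := congrArg (fun k : A →* ℂˣ => ((k x : ℂˣ) : ℂ)) h'
    simpa using h2
  exact ⟨Finite.of_injective _ hj, Nat.card_le_card_of_injective _ hj⟩

theorem pf_ISO : T_ISO := by
  intro G _ b D I hD hDb hsym hI
  classical
  obtain ⟨I0, hI0⟩ : ∃ I0 : Subgroup G, ∀ x, x ∈ I0 ↔ ∀ y, y ∈ I → b x y = 1 := by
    refine ⟨⨅ y ∈ I, (b y).ker, ?_⟩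
    intro x
    simp only [Subgroup.mem_iInf, MonoidHom.mem_ker]
    constructor
    · intro h y hy
      rw [hsym]; exact h y hy
    · intro h y hy
      rw [hsym]; exact h y hy
  have hII0 : I ≤ I0 := fun x hx => (hI0 x).2 (fun y hy => hI x hx y hy)
  have hDI0 : D ≤ I0 := fun x hx => (hI0 x).2 (fun y _ => (hDb x).1 hx y)
  have hmul : D.relIndex I0 * I0.index = D.index := Subgroup.relIndex_mul_index hDI0
  have hI0ne : I0.index ≠ 0 := by
    intro h
    rw [h, mul_zero] at hmul
    exact hD hmul.symm
  have hrne : D.relIndex I0 ≠ 0 := by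
    intro h
    rw [h, zero_mul] at hmul
    exact hD hmul.symm
  have h1 : D.relIndex I ≤ D.relIndex I0 := Subgroup.relIndex_le_of_le_right hII0 hrne
  have h2 : D.relIndex I ≤ I0.index := by
    have : I0.FiniteIndex := ⟨hI0ne⟩
    have : Finite (G ⧸ I0) := Subgroup.finite_quotient_of_finiteIndex
    obtain ⟨hf, hc⟩ := card_signs_le (G ⧸ I0)
    -- the map I → Hom (G/I0, signs)
    have hker : ∀ i : I, I0 ≤ (b (i : G)).ker := by
      intro i x hx
      rw [MonoidHom.mem_ker, hsym]
      exact (hI0 x).1 hx i i.2
    let F : I →* ((G ⧸ I0) →* ℤˣ) :=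
      { toFun := fun i => QuotientGroup.lift I0 (b (i : G)) (hker i)
        map_one' := by
          refine MonoidHom.ext fun x => ?_
          obtain ⟨x, rfl⟩ := QuotientGroup.mk_surjective x
          simp
        map_mul' := by
          intro i j
          refine MonoidHom.ext fun x => ?_
          obtain ⟨x, rfl⟩ := QuotientGroup.mk_surjective x
          simp }
    have hkF : F.ker = D.subgroupOf I := by
      ext i
      rw [MonoidHom.mem_ker, Subgroup.mem_subgroupOf, hDb]
      constructor
      · intro h y
        have := DFunLike.congr_fun h (QuotientGroup.mk y)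
        simpa [F] using this
      · intro h
        refine MonoidHom.ext fun x => ?_
        obtain ⟨x, rfl⟩ := QuotientGroup.mk_surjective x
        simpa [F] using h x
    have h3 : D.relIndex I = Nat.card F.range := by
      rw [Subgroup.relIndex, ← hkF, Subgroup.index_ker]
    rw [h3, Subgroup.index]
    exact (Nat.card_le_card_of_injective (fun x : F.range => (x : (G ⧸ I0) →* ℤˣ))
      Subtype.val_injective).trans hc
  calc (D.relIndex I) ^ 2 = D.relIndex I * D.relIndex I := sq _
    _ ≤ D.relIndex I0 * I0.index := Nat.mul_le_mul h1 h2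
    _ = D.index := hmul

end Pool.Agent.H16.QCF
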