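import Pool.Agent.H23.QCF.Targets

/-!
# Row KSLOT: common slots
-/

set_option autoImplicit false

open NumberField IsDedekindDomain Pool.Agent.H23.QCF
open Pool.Agent.H32.QC (Sol hil Iso FPl Pl ic hs sqAt HasseConic ProdFormula Prescribed)

namespace Pool.Agent.H16.QCF

section

variable {L : Type} [Field L]

theorem sol_symm' {A B : L} (h : Sol A B) : Sol B A := by
  obtain ⟨x, y, z, h0, h⟩ := h
  refine ⟨y, x, z, ?_, ?_⟩
  · tauto
  · rw [h]; ring

theorem sol_comm' {A B : L} : Sol A B ↔ Sol B A := ⟨sol_symm', sol_symm'⟩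

/-- multiplying the first entry by a square -/
theorem sol_mul_sq {A B c : L} (hc : c ≠ 0) : Sol (A * c ^ 2) B ↔ Sol A B := by
  constructor
  · rintro ⟨x, y, z, h0, h⟩
    refine ⟨c * x, y, z, ?_, ?_⟩
    · rcases h0 with h0 | h0 | h0
      · exact Or.inl (mul_ne_zero hc h0)
      · exact Or.inr (Or.inl h0)
      · exact Or.inr (Or.inr h0)
    · rw [h]; ring
  · rintro ⟨x, y, z, h0, h⟩
    refine ⟨x / c, y, z, ?_, ?_⟩
    · rcases h0 with h0 | h0 | h0
      · exact Or.inl (div_ne_zero h0 hc)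
      · exact Or.inr (Or.inl h0)
      · exact Or.inr (Or.inr h0)
    · rw [h]; field_simp

theorem sol_norm_mul {A B : L} (Y Z : L) (h : Sol A B) : Sol A ((Y ^ 2 - A * Z ^ 2) * B) := by
  obtain ⟨x, y, z, h0, h⟩ := h
  by_cases hy : y = 0
  · subst hy
    refine ⟨x, 0, z, h0, ?_⟩
    rw [h]; ring
  · refine ⟨Y * x + Z * z, y, Y * z + A * Z * x, Or.inr (Or.inl hy), ?_⟩
    linear_combination (Y ^ 2 - A * Z ^ 2) * h

theorem sol_norm_mul_iff {A B : L} (Y Z : L) (hN : Y ^ 2 - A * Z ^ 2 ≠ 0) :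
    Sol A ((Y ^ 2 - A * Z ^ 2) * B) ↔ Sol A B := by
  constructor
  · intro h
    have h1 := sol_norm_mul Y Z h
    have h2 : (Y ^ 2 - A * Z ^ 2) * ((Y ^ 2 - A * Z ^ 2) * B) =
        B * (Y ^ 2 - A * Z ^ 2) ^ 2 := by ring
    rw [h2, sol_comm', sol_mul_sq hN] at h1
    exact sol_symm' h1
  · exact sol_norm_mul Y Z

theorem sol_add {A B : L} (hAB : A + B ≠ 0) : Sol (A + B) (-(A * B)) ↔ Sol A B := by
  constructor
  · rintro ⟨X, Y, Z, h0, h⟩
    refine ⟨Z + B * Y, Z - A * Y, (A + B) * X, ?_, ?_⟩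
    · by_contra hcon
      push Not at hcon
      obtain ⟨h1, h2, h3⟩ := hcon
      have hX : X = 0 := by
        rcases mul_eq_zero.1 h3 with h4 | h4
        · exact absurd h4 hAB
        · exact h4
      have hY : Y = 0 := by
        have h4 : (A + B) * Y = 0 := by linear_combination h1 - h2
        rcases mul_eq_zero.1 h4 with h5 | h5
        · exact absurd h5 hAB
        · exact h5
      have hZ : Z = 0 := by
        rw [hY, mul_zero, add_zero] at h1
        exact h1
      rcases h0 with h0 | h0 | h0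
      · exact h0 hX
      · exact h0 hY
      · exact h0 hZ
    · linear_combination -(A + B) * h
  · rintro ⟨x, y, z, h0, h⟩
    refine ⟨z, x - y, A * x + B * y, ?_, ?_⟩
    · by_contra hcon
      push Not at hcon
      obtain ⟨h1, h2, h3⟩ := hcon
      have hxy : x = y := sub_eq_zero.1 h2
      subst hxy
      have hx : x = 0 := by
        have h4 : (A + B) * x = 0 := by linear_combination h3
        rcases mul_eq_zero.1 h4 with h5 | h5
        · exact absurd h5 hAB
        · exact h5
      rcases h0 with h0 | h0 | h0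
      · exact h0 hx
      · exact h0 hx
      · exact h0 h1
    · linear_combination -(A + B) * h

theorem sol_one' (B : L) : Sol 1 B := ⟨1, 0, 1, Or.inl one_ne_zero, by ring⟩

theorem sol_map {K : Type} [Field K] (f : K →+* L) {A B : K} (h : Sol A B) :
    Sol (f A) (f B) := by
  obtain ⟨x, y, z, h0, h⟩ := h
  refine ⟨f x, f y, f z, ?_, ?_⟩
  · rcases h0 with h0 | h0 | h0
    · exact Or.inl ((map_ne_zero f).2 h0)
    · exact Or.inr (Or.inl ((map_ne_zero f).2 h0))
    · exact Or.inr (Or.inr ((map_ne_zero f).2 h0))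
  · rw [← map_pow, h]
    simp only [map_add, map_mul, map_pow]

end

/-- a common slot from a representation by the form of pure quaternions -/
theorem slot_of_rep {K : Type} [Field K] (t a b X Y Z : K) (ht : t ≠ 0) (ha : a ≠ 0)
    (hb : b ≠ 0) (h : t = a * X ^ 2 + b * (Y ^ 2 - a * Z ^ 2)) :
    ∃ z : K, z ≠ 0 ∧ ∀ (L : Type) [Field L] (f : K →+* L),
      Sol (f a) (f b) ↔ Sol (f z) (f t) := by
  by_cases hn : Y ^ 2 - a * Z ^ 2 = 0
  · rw [hn, mul_zero, add_zero] at h
    have hX : X ≠ 0 := by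
      rintro rfl
      apply ht
      rw [h]; ring
    refine ⟨b, hb, ?_⟩
    intro L _ f
    rw [h, map_mul, map_pow, sol_comm' (A := f b), sol_mul_sq ((map_ne_zero f).2 hX)]
  · have hnf : ∀ (L : Type) [Field L] (f : K →+* L), f Y ^ 2 - f a * f Z ^ 2 ≠ 0 := by
      intro L _ f
      have h1 : f (Y ^ 2 - a * Z ^ 2) ≠ 0 := (map_ne_zero f).2 hn
      simpa using h1
    by_cases hX : X = 0
    · subst hX
      refine ⟨a, ha, ?_⟩
      intro L _ f
      have h1 : f t = (f Y ^ 2 - f a * f Z ^ 2) * f b := by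
        rw [h]
        simp only [map_add, map_mul, map_pow, map_sub, map_zero]
        ring
      rw [h1, sol_norm_mul_iff _ _ (hnf L f)]
    · refine ⟨-((a * X ^ 2) * ((Y ^ 2 - a * Z ^ 2) * b)), ?_, ?_⟩
      · exact neg_ne_zero.2 (mul_ne_zero (mul_ne_zero ha (pow_ne_zero _ hX)) (mul_ne_zero hn hb))
      · intro L _ f
        have h1 : f t = f a * f X ^ 2 + (f Y ^ 2 - f a * f Z ^ 2) * f b := by
          rw [h]
          simp only [map_add, map_mul, map_pow, map_sub]
          ring
        have h2 : f (-((a * X ^ 2) * ((Y ^ 2 - a * Z ^ 2) * b))) =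
            -((f a * f X ^ 2) * ((f Y ^ 2 - f a * f Z ^ 2) * f b)) := by
          simp only [map_neg, map_mul, map_pow, map_sub]
        have h3 : f a * f X ^ 2 + (f Y ^ 2 - f a * f Z ^ 2) * f b ≠ 0 := by
          rw [← h1]
          exact (map_ne_zero f).2 ht
        rw [h2, h1, sol_comm' (A := -_), sol_add h3, sol_mul_sq ((map_ne_zero f).2 hX),
          sol_norm_mul_iff _ _ (hnf L f)]

theorem pf_SLOT : T_SLOT := by
  intro K E _ _ _ _ t s a b ht hs hall ha hb hsol
  have ht0 : t ≠ 0 := by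
    rintro rfl
    exact ht ⟨0, by simp⟩
  -- independence of 1 and s
  have hind : ∀ α β : K, algebraMap K E α + algebraMap K E β * s = 0 → α = 0 ∧ β = 0 := by
    intro α β h
    by_cases hβ : β = 0
    · subst hβ
      rw [map_zero, zero_mul, add_zero] at h
      exact ⟨(map_eq_zero _).1 h, rfl⟩
    · exfalso
      apply ht
      refine ⟨α / β, ?_⟩
      apply (algebraMap K E).injective
      have hβ' : algebraMap K E β ≠ 0 := (map_ne_zero _).2 hβ
      have hs' : s = -(algebraMap K E α / algebraMap K E β) := by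
        field_simp
        linear_combination h
      rw [← hs, hs', map_mul, map_div₀]
      ring
  by_cases hK : Sol a b
  · refine ⟨1, one_ne_zero, ?_⟩
    intro L _ f
    constructor
    · intro _
      rw [map_one]
      exact sol_one' _
    · intro _
      exact sol_map f hK
  · obtain ⟨x, y, z, h0, h⟩ := hsol
    obtain ⟨x0, x1, rfl⟩ := hall x
    obtain ⟨y0, y1, rfl⟩ := hall y
    obtain ⟨z0, z1, rfl⟩ := hall z
    have hkey := hind (a * x0 ^ 2 + b * y0 ^ 2 - z0 ^ 2 + t * (a * x1 ^ 2 + b * y1 ^ 2 - z1 ^ 2))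
      (2 * (a * x0 * x1 + b * y0 * y1 - z0 * z1)) (by
        simp only [map_add, map_sub, map_mul, map_pow, map_ofNat]
        rw [← hs]
        linear_combination -h)
    obtain ⟨hk1, hk2⟩ := hkey
    have hk3 : a * x0 * x1 + b * y0 * y1 - z0 * z1 = 0 := by
      rcases mul_eq_zero.1 hk2 with h1 | h1
      · exact absurd h1 two_ne_zero
      · exact h1
    obtain ⟨c, hc⟩ : ∃ c, c = a * x1 ^ 2 + b * y1 ^ 2 - z1 ^ 2 := ⟨_, rfl⟩
    by_cases hc0 : c = 0
    · exfalso
      apply hK
      rw [← hc, hc0, mul_zero, add_zero] at hk1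
      by_cases hQ : x1 ≠ 0 ∨ y1 ≠ 0 ∨ z1 ≠ 0
      · refine ⟨x1, y1, z1, hQ, ?_⟩
        linear_combination hc - hc0
      · push Not at hQ
        obtain ⟨rfl, rfl, rfl⟩ := hQ
        refine ⟨x0, y0, z0, ?_, ?_⟩
        · rcases h0 with h0 | h0 | h0
          · left
            rintro rfl
            exact h0 (by simp)
          · right; left
            rintro rfl
            exact h0 (by simp)
          · right; right
            rintro rfl
            exact h0 (by simp)
        · linear_combination -hk1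
    · apply slot_of_rep t a b ((z0 * x1 - x0 * z1) / c) ((y0 * z1 - z0 * y1) / c)
        ((y0 * x1 - x0 * y1) / c) ht0 ha hb
      have h1 : t * c ^ 2 = a * (z0 * x1 - x0 * z1) ^ 2 + b * (y0 * z1 - z0 * y1) ^ 2 -
          a * b * (y0 * x1 - x0 * y1) ^ 2 := by
        rw [hc]
        rw [← hc] at hk1
        have hk4 : a * x0 ^ 2 + b * y0 ^ 2 - z0 ^ 2 = -(t * c) := by linear_combination hk1
        rw [← hc]
        have hk5 : t * c ^ 2 = -((a * x0 ^ 2 + b * y0 ^ 2 - z0 ^ 2) * c) := by
          rw [hk4]; ring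
        rw [hk5, hc]
        linear_combination -(a * x0 * x1 + b * y0 * y1 - z0 * z1) * hk3
      have h2 : a * ((z0 * x1 - x0 * z1) / c) ^ 2 + b * (((y0 * z1 - z0 * y1) / c) ^ 2 -
          a * ((y0 * x1 - x0 * y1) / c) ^ 2) = (a * (z0 * x1 - x0 * z1) ^ 2 +
          b * (y0 * z1 - z0 * y1) ^ 2 - a * b * (y0 * x1 - x0 * y1) ^ 2) / c ^ 2 := by
        field_simp
        ring
      rw [h2, ← h1]
      field_simp

end Pool.Agent.H16.QCF
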